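import Pool.Agent.H7.HZ.Stmts

/-!
# Crossing triangles, small sum of the deficits (CQS)
-/

set_option autoImplicit false

open Finset

namespace Pool.HZ7

open Pool.Agent.H23.KT Pool.Agent.H46.KW Pool.KQ Pool.GT7 Pool.GU7

theorem cqs_choose (c d : ℕ) (h : c ≤ d) : ((c.choose 2 : ℕ) : ℝ) ≤ (d : ℝ) * (d - 1) / 2 := by
  have h1 : (c.choose 2 : ℝ) ≤ (d.choose 2 : ℝ) := by exact_mod_cast Nat.choose_le_choose 2 h
  rw [Nat.cast_choose_two ℝ d] at h1
  exact h1

theorem cqs_double {V : Type} [Fintype V] [DecidableEq V] (G : SimpleGraph V) (S : Finset V) :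
    ∑ q ∈ univ \ S, (nb G S q).card = ∑ z ∈ S, (nb G (univ \ S) z).card := by
  classical
  have e1 : ∀ q, nb G S q = S.filter (fun z => G.Adj q z) := by
    intro q; ext z; rw [mem_nb, mem_filter]
  have e2 : ∀ z, nb G (univ \ S) z = (univ \ S).filter (fun q => G.Adj q z) := by
    intro z; ext q; rw [mem_nb, mem_filter, G.adj_comm]
  simp only [e1, e2]
  exact sum_card_bipartiteAbove_eq_sum_card_bipartiteBelow _

theorem cqs_sq {ι : Type} (s : Finset ι) (f : ι → ℝ) (hf : ∀ i ∈ s, 0 ≤ f i) :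
    ∑ i ∈ s, f i ^ 2 ≤ (∑ i ∈ s, f i) ^ 2 := by
  rw [sq, sum_mul]
  refine sum_le_sum fun i hi => ?_
  rw [sq]
  exact mul_le_mul_of_nonneg_left (single_le_sum hf hi) (hf i hi)

theorem cqs_thm : CQSStmt := by
  intro p r a V _ _ G S h
  set D : ℝ := ∑ u ∈ S, (dl G p r a S u : ℝ) with hD
  have hD0 : 0 ≤ D := sum_nonneg fun _ _ => Nat.cast_nonneg _
  have h1 : ∑ z ∈ S, (((nb G (univ \ S) z).card).choose 2 : ℝ) +
      ∑ u ∈ S, ((dl G p r a S u : ℝ) * (dl G p r a S u - 1)) / 2 ≤ D ^ 2 := by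
    rw [← sum_add_distrib]
    refine le_trans ?_ (cqs_sq S (fun u => (dl G p r a S u : ℝ)) fun _ _ => Nat.cast_nonneg _)
    refine sum_le_sum fun u hu => ?_
    have h2 := cqs_choose _ _ (h u hu)
    have h3 : (0 : ℝ) ≤ dl G p r a S u := Nat.cast_nonneg _
    nlinarith
  have h2 : ∑ q ∈ univ \ S, (kc G (nb G S q) 2 : ℝ) ≤ D ^ 2 := by
    have h3 : ∀ q ∈ univ \ S, (kc G (nb G S q) 2 : ℝ) ≤ ((nb G S q).card : ℝ) ^ 2 := by
      intro q _
      have h4 := kc_le_choose G (nb G S q) 2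
      have h5 : ((kc G (nb G S q) 2 : ℕ) : ℝ) ≤ (((nb G S q).card.choose 2 : ℕ) : ℝ) := by
        exact_mod_cast h4
      have h6 := cqs_choose _ _ (le_refl (nb G S q).card)
      have h7 : (0 : ℝ) ≤ (nb G S q).card := Nat.cast_nonneg _
      nlinarith
    refine (sum_le_sum h3).trans ?_
    refine (cqs_sq _ (fun q => ((nb G S q).card : ℝ)) fun _ _ => Nat.cast_nonneg _).trans ?_
    have h8 : ∑ q ∈ univ \ S, ((nb G S q).card : ℝ) ≤ D := by
      rw [← Nat.cast_sum, cqs_double, hD, Nat.cast_sum]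
      exact sum_le_sum fun u hu => by exact_mod_cast h u hu
    exact pow_le_pow_left₀ (sum_nonneg fun _ _ => Nat.cast_nonneg _) h8 2
  linarith

end Pool.HZ7
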